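import Mathlib

set_option autoImplicit false
open Function List

namespace Pool.Agent.Results.MP_c47b4a_al.FinPres

lemma len {A ι : Type*} {u : ι → List A} {K : ℕ} (h : ∀ i, 1 ≤ (u i).length ∧ (u i).length ≤ K) :
    ∀ l : List ι, l.length ≤ (l.flatMap u).length ∧ (l.flatMap u).length ≤ K * l.length
  | [] => by simp
  | i :: l => by
    have := len h l; have := h i
    simp only [flatMap_cons, length_append, length_cons, mul_add]; omega

structure St (A B ι M : Type*) [Monoid M] where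
  F : List A → M
  G : List B → M
  F0 : F [] = 1
  G0 : G [] = 1
  hF : ∀ a b, F (a ++ b) = F a * F b
  hG : ∀ a b, G (a ++ b) = G a * G b
  u : ι → List A
  v : ι → List B
  K : ℕ
  hu : ∀ i, 1 ≤ (u i).length ∧ (u i).length ≤ K
  hv : ∀ i, 1 ≤ (v i).length ∧ (v i).length ≤ K
  huv : ∀ i, F (u i) = G (v i)
  gen : ∀ U V, U ≠ [] → V ≠ [] → F U = G V → ∃ l : List ι, U = l.flatMap u ∧ V = l.flatMap v
  sF : ∀ U ≠ [], ∃ V ≠ [], G V = F U
  sG : ∀ b, ∃ W ≠ [], F W = G [b]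

variable {A B ι M : Type*} [Monoid M] (s : St A B ι M)

lemma St.fm : ∀ l : List ι, s.F (l.flatMap s.u) = s.G (l.flatMap s.v)
  | [] => s.F0.trans s.G0.symm
  | i :: l => by simp only [flatMap_cons, s.hF, s.hG, s.huv, St.fm l]

lemma St.nofix {U T : List A} (hU : U ≠ []) (h : s.F (U ++ T) = s.F U) : T = [] := by
  by_contra hT
  obtain ⟨V, hV, e⟩ := s.sF U hU
  have : ∀ n, ∃ W : List A, n ≤ W.length ∧ s.F (U ++ W) = s.F U := fun n => by
    induction n with
    | zero => exact ⟨[], by simp⟩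
    | succ n ih =>
      obtain ⟨W, h1, h2⟩ := ih
      exact ⟨T ++ W, by have := length_pos_iff.2 hT; simp; omega,
        by rw [← append_assoc, s.hF, h, ← s.hF, h2]⟩
  obtain ⟨W, h1, h2⟩ := this (s.K * V.length + 1)
  obtain ⟨l, h3, h4⟩ := s.gen (U ++ W) V (by simp [hU]) hV (h2.trans e.symm)
  have := (len s.hu l).2
  have := Nat.mul_le_mul_left s.K (len s.hv l).1
  rw [← h3, ← h4, length_append] at *
  omega

lemma pre {A ι : Type*} (u : ι → List A) (n : ℕ) (l : List ι) :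
    (l.take n).flatMap u <+: l.flatMap u := ⟨(l.drop n).flatMap u, by simp [← flatMap_append]⟩

lemma St.bridge {x y : ι} {l₁ l₂ : List ι} (eu : (x :: l₁).flatMap s.u = (l₂ ++ [y]).flatMap s.u)
    (ev : (x :: l₁).flatMap s.v = (l₂ ++ [y]).flatMap s.v) (h1 : s.K ^ 3 ≤ l₁.length)
    (h2 : s.K + s.K ^ 4 ≤ l₂.length) : ∃ σ : List ι,
      ((x :: σ).flatMap s.u = l₂.flatMap s.u ∧ (x :: σ).flatMap s.v = l₂.flatMap s.v) ∧
      l₁.flatMap s.u = (σ ++ [y]).flatMap s.u ∧ l₁.flatMap s.v = (σ ++ [y]).flatMap s.v := by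
  have hK : 1 ≤ s.K := (s.hu x).1.trans (s.hu x).2
  have hK3 : 1 ≤ s.K ^ 3 := Nat.one_le_pow _ _ hK
  have e4 : s.K * s.K ^ 3 = s.K ^ 4 := by ring
  have e3 : s.K * (s.K * s.K) = s.K ^ 3 := by ring
  obtain ⟨p, r, rfl, hp⟩ : ∃ p r, l₂ = p ++ r ∧ p.length = s.K :=
    ⟨_, _, (take_append_drop s.K l₂).symm, by simp; omega⟩
  simp only [flatMap_cons, flatMap_append, flatMap_nil, append_nil, length_append] at *
  have pu := len s.hu p; have pv := len s.hv p; have ru := len s.hu r; have rv := len s.hv r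
  obtain ⟨α, hα⟩ := prefix_of_prefix_length_le ⟨_, eu⟩ ⟨_, (append_assoc _ _ _).symm⟩
    (by have := s.hu x; omega)
  obtain ⟨β, hβ⟩ := prefix_of_prefix_length_le ⟨_, ev⟩ ⟨_, (append_assoc _ _ _).symm⟩
    (by have := s.hv x; omega)
  have la := congrArg length hα; have lb := congrArg length hβ
  rw [length_append] at la lb
  rw [hp] at pu pv
  have H1 : s.F (s.u x) * s.F α = s.F (s.u x) * s.G β := by
    rw [← s.hF, hα, s.fm, ← hβ, s.hG, s.huv]
  rw [← hα, append_assoc, append_assoc, append_right_inj, ← append_assoc] at eu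
  rw [← hβ, append_assoc, append_assoc, append_right_inj, ← append_assoc] at ev
  have qu := len s.hu (l₁.take (s.K ^ 3)); have qv := len s.hv (l₁.take (s.K ^ 3))
  rw [length_take, min_eq_left h1] at qu qv
  obtain ⟨α', hα'⟩ := prefix_of_prefix_length_le (pre s.u (s.K ^ 3) l₁) ⟨_, eu.symm⟩
    (by rw [length_append]; omega)
  have hW := prefix_of_prefix_length_le (pre s.v (s.K ^ 3) l₁) ⟨_, ev.symm⟩
    (by rw [length_append]; omega)
  choose ψ hψ0 hψ using s.sG
  have hψ' : ∀ V : List B, s.F (V.flatMap ψ) = s.G V := fun V => by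
    induction V with
    | nil => exact s.F0.trans s.G0.symm
    | cons b V ih => rw [flatMap_cons, s.hF, hψ, ih, ← s.hG]; rfl
  obtain ⟨γ, hγ⟩ : ∃ γ, s.G γ = s.F α' := by
    by_cases h : α' = []
    · exact ⟨[], by rw [h, s.F0, s.G0]⟩
    · exact (s.sF _ h).imp fun _ h => h.2
  obtain ⟨l, hl, hl'⟩ := s.gen (α ++ (r.flatMap s.v).flatMap ψ)
    ((l₁.take (s.K ^ 3)).flatMap s.v ++ γ) (by
      obtain ⟨b, t, h⟩ := exists_cons_of_length_pos (l := r.flatMap s.v) (by omega)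
      simp [h, hψ0]) (ne_nil_of_length_pos (by rw [length_append]; omega))
    (by rw [s.hF, hψ', ← s.fm, ← s.hF, ← hα', s.hF, s.hG, s.fm, hγ])
  have ll : s.K * s.K ≤ l.length := by
    have := (len s.hv l).2
    rw [← hl', length_append] at this
    exact Nat.le_of_mul_le_mul_left (by omega) hK
  have tu := len s.hu (l.take (s.K * s.K)); have tv := len s.hv (l.take (s.K * s.K))
  rw [length_take, min_eq_left ll] at tu tv
  have a1 := hl ▸ pre s.u (s.K * s.K) l
  have a2 := (prefix_of_prefix_length_le (hl' ▸ pre s.v (s.K * s.K) l) (prefix_append _ _)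
    (by omega)).trans hW
  obtain ⟨Z, hZ⟩ := prefix_of_prefix_length_le (prefix_append _ _) a1 (by omega)
  obtain ⟨Y, hY⟩ := prefix_of_prefix_length_le (prefix_append _ _) a2 (by omega)
  have H2 : s.F α * s.F Z = s.G β * s.G Y := by rw [← s.hF, hZ, s.fm, ← hY, s.hG]
  rw [← hZ, prefix_append_right_inj] at a1
  rw [← hY, prefix_append_right_inj] at a2
  obtain ⟨Y', hY'⟩ := a2
  have n0 : ∀ t, s.u x ++ t ≠ [] := fun t => ne_nil_of_length_pos (by
    have := s.hu x; rw [length_append]; omega)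
  have H3 : s.F (s.u x ++ (α ++ Z)) = s.F (s.u x ++ (α ++ Y.flatMap ψ)) := by
    rw [s.hF, s.hF, s.hF, s.hF, H2, hψ', ← mul_assoc, ← mul_assoc, H1]
  have H4 : Z = Y.flatMap ψ := by
    rcases prefix_or_prefix_of_prefix a1 ⟨Y'.flatMap ψ, by rw [← flatMap_append, hY']⟩ with
      ⟨E, h⟩ | ⟨E, h⟩
    · rw [← h, s.nofix (T := E) (n0 (α ++ Z)) (by rw [H3, ← h]; simp), append_nil]
    · rw [← h, s.nofix (T := E) (n0 (α ++ Y.flatMap ψ)) (by rw [← H3, ← h]; simp), append_nil]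
  obtain ⟨σ, h3, h4⟩ := s.gen (α ++ r.flatMap s.u) (β ++ r.flatMap s.v)
    (ne_nil_of_length_pos (by rw [length_append]; omega))
    (ne_nil_of_length_pos (by rw [length_append]; omega))
    (by rw [s.hF, s.fm, s.hG, ← hY', s.hG, ← mul_assoc, ← mul_assoc, ← H2, H4, hψ'])
  exact ⟨σ, ⟨by rw [← h3, ← hα, append_assoc], by rw [← h4, ← hβ, append_assoc]⟩,
    by rw [← h3, eu], by rw [← h4, ev]⟩

def wl {α : Type*} (x : FreeSemigroup α) : List α := x.head :: x.tail

@[simp] lemma wl_mul {α : Type*} (x y : FreeSemigroup α) : wl (x * y) = wl x ++ wl y := rfl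
@[simp] lemma wl_of {α : Type*} (a : α) : wl (.of a) = [a] := rfl
lemma wl_inj {α : Type*} : Injective (@wl α) := fun _ _ h =>
  FreeSemigroup.ext (cons.inj h).1 (cons.inj h).2
lemma wl_surj {α : Type*} {l : List α} (h : l ≠ []) : ∃ x, wl x = l := by
  obtain ⟨a, t, rfl⟩ := exists_cons_of_ne_nil h
  exact ⟨⟨a, t⟩, rfl⟩

lemma St.main (c : Con (FreeSemigroup ι)) (hc : ∀ x y, (wl x).flatMap s.u = (wl y).flatMap s.u →
    (wl x).flatMap s.v = (wl y).flatMap s.v →
      ((wl x).flatMap s.u).length ≤ s.K * (s.K + s.K ^ 4 + s.K ^ 3 + 1) → c x y) (n : ℕ) :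
    ∀ x y, ((wl x).flatMap s.u).length = n → (wl x).flatMap s.u = (wl y).flatMap s.u →
      (wl x).flatMap s.v = (wl y).flatMap s.v → c x y := by
  induction n using Nat.strong_induction_on with
  | _ n ih =>
  intro x y hn eu ev
  by_contra h
  have h0 := not_le.1 fun h' => h (hc x y eu ev h')
  have h1 := Nat.lt_of_mul_lt_mul_left (h0.trans_le (len s.hu _).2)
  have h2 := Nat.lt_of_mul_lt_mul_left ((eu ▸ h0).trans_le (len s.hu _).2)
  obtain ⟨l₂, b, hy⟩ := eq_nil_or_concat' (wl y) |>.resolve_left (cons_ne_nil _ _)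
  obtain ⟨a, l₁⟩ := x
  rw [hy] at eu ev h2
  simp only [wl, length_cons, length_append, length_nil] at h1 h2
  obtain ⟨σ, ⟨h3, h4⟩, h5, h6⟩ := s.bridge (x := a) (l₁ := l₁) eu ev (by omega) (by omega)
  obtain ⟨x₁, rfl⟩ := wl_surj (l := l₁) (ne_nil_of_length_pos (by omega))
  obtain ⟨y₁, rfl⟩ := wl_surj (l := l₂) (ne_nil_of_length_pos (by omega))
  obtain ⟨z, hz⟩ := wl_surj (l := σ ++ [b]) (by simp)
  obtain rfl : y = y₁ * .of b := wl_inj hy
  have a1 := c.mul (c.refl (.of a)) (ih _ (by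
    have := s.hu a; rw [← hn]; simp [wl]; omega) x₁ z rfl (hz ▸ h5) (hz ▸ h6))
  have a2 := c.mul (ih _ (by
    have := s.hu b; rw [← hn, eu]; simp only [wl, h3, flatMap_append]; simp; omega)
    ⟨a, σ⟩ y₁ rfl h3 h4) (c.refl (.of b))
  rw [show FreeSemigroup.of a * z = ⟨a, σ⟩ * .of b from wl_inj (by rw [wl_mul, hz]; rfl)] at a1
  exact h (c.trans a1 a2)

def ex {A Q : Type*} [Semigroup Q] (f : FreeSemigroup A →ₙ* Q) (l : List A) : WithOne Q :=
  (l.map fun a => (f (.of a) : WithOne Q)).prod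

lemma ex_wl {A Q : Type*} [Semigroup Q] (f : FreeSemigroup A →ₙ* Q) (x : FreeSemigroup A) :
    ex f (wl x) = f x := by
  induction x using FreeSemigroup.recOnMul with
  | ih1 => simp [ex]
  | ih2 _ _ _ h => simpa [ex] using congrArg _ h

theorem result (A B Q : Type*) [Finite A] [Finite B] [Semigroup Q] (f : FreeSemigroup A →ₙ* Q)
    (g : FreeSemigroup B →ₙ* Q) (hf : Surjective f) (hg : Surjective g)
    (S : Subsemigroup (FreeSemigroup A × FreeSemigroup B)) (hS : ∀ p, p ∈ S ↔ f p.1 = g p.2)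
    (hfg : ∃ X : Set (FreeSemigroup A × FreeSemigroup B), X.Finite ∧ Subsemigroup.closure X = S) :
    ∃ (n : ℕ) (R : Set (FreeSemigroup (Fin n) × FreeSemigroup (Fin n))), R.Finite ∧
      Nonempty ((conGen fun x y => (x, y) ∈ R).Quotient ≃* S) := by
  obtain ⟨X, hX, rfl⟩ := hfg
  obtain ⟨n, e, -, rfl⟩ := hX.fin_param
  let π := FreeSemigroup.lift e
  have hπ : ∀ x, wl (π x).1 = (wl x).flatMap (fun i => wl (e i).1) ∧
      wl (π x).2 = (wl x).flatMap fun i => wl (e i).2 := fun x => by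
    induction x using FreeSemigroup.recOnMul with
    | ih1 => simp [π]
    | ih2 _ _ _ h => simp [π, ← h.1, ← h.2]
  have hr : ∀ p, p ∈ Subsemigroup.closure (Set.range e) ↔ ∃ x, π x = p := fun p =>
    ⟨fun h => (Subsemigroup.closure_le (S := π.srange)).2 (by
      rintro _ ⟨i, rfl⟩; exact ⟨.of i, rfl⟩) h, by
      rintro ⟨x, rfl⟩
      induction x using FreeSemigroup.recOnMul with
      | ih1 i => exact Subsemigroup.subset_closure ⟨i, rfl⟩
      | ih2 _ _ h h' => exact map_mul π _ _ ▸ mul_mem h h'⟩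
  obtain ⟨K, hK⟩ := (Set.finite_range fun i => (wl (e i).1).length + (wl (e i).2).length).bddAbove
  let s : St A B (Fin n) (WithOne Q) :=
    { F := ex f, G := ex g, F0 := rfl, G0 := rfl, hF := by simp [ex], hG := by simp [ex]
      u i := wl (e i).1, v i := wl (e i).2, K := K
      hu i := ⟨by simp [wl], le_of_add_le_left (hK ⟨i, rfl⟩)⟩
      hv i := ⟨by simp [wl], le_of_add_le_right (hK ⟨i, rfl⟩)⟩
      huv i := by rw [ex_wl, ex_wl, (hS _).1 (Subsemigroup.subset_closure ⟨i, rfl⟩)]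
      gen U V hU hV h := by
        obtain ⟨a, rfl⟩ := wl_surj hU
        obtain ⟨b, rfl⟩ := wl_surj hV
        obtain ⟨x, hx⟩ := (hr _).1 ((hS (a, b)).2 (by simpa [ex_wl] using h))
        exact ⟨wl x, by simpa [hx] using hπ x⟩
      sF U hU := by
        obtain ⟨a, rfl⟩ := wl_surj hU
        obtain ⟨b, h⟩ := hg (f a)
        exact ⟨wl b, cons_ne_nil _ _, by rw [ex_wl, ex_wl, h]⟩
      sG b := by
        obtain ⟨a, h⟩ := hf (g (.of b))
        exact ⟨wl a, cons_ne_nil _ _, by rw [ex_wl, h, ← ex_wl]; rfl⟩ }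
  let N := K * (K + K ^ 4 + K ^ 3 + 1)
  let T := wl ⁻¹' {l : List (Fin n) | l.length ≤ N}
  have hT : T.Finite := (List.finite_length_le _ N).preimage wl_inj.injOn
  let c := conGen fun x y => (x, y) ∈ {p ∈ T ×ˢ T | π p.1 = π p.2}
  have h1 : c ≤ Con.ker π := Con.conGen_le.2 fun _ _ h => h.2
  have h2 : ∀ x y, π x = π y → c x y := fun x y h =>
    s.main c (fun x y a b h => ConGen.Rel.of _ _ ⟨⟨(len s.hu _).1.trans h,
      (len s.hu _).1.trans (a ▸ h)⟩, Prod.ext (wl_inj (by rw [(hπ _).1, (hπ _).1]; exact a))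
        (wl_inj (by rw [(hπ _).2, (hπ _).2]; exact b))⟩) _ x y rfl
      ((hπ x).1.symm.trans (h ▸ (hπ y).1)) ((hπ x).2.symm.trans (h ▸ (hπ y).2))
  refine ⟨n, _, (hT.prod hT).sep _, ⟨.ofBijective (F := c.Quotient →ₙ* _)
    ⟨fun q => q.liftOn (fun x => ⟨π x, (hr _).2 ⟨x, rfl⟩⟩) fun _ _ h => Subtype.ext (h1 h), ?_⟩
      ⟨?_, fun p => ?_⟩⟩⟩
  · rintro ⟨x⟩ ⟨y⟩; exact Subtype.ext (map_mul π x y)
  · rintro ⟨x⟩ ⟨y⟩ h; exact Quotient.sound (h2 x y (congrArg Subtype.val h))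
  · obtain ⟨x, h⟩ := (hr _).1 p.2
    exact ⟨x, Subtype.ext h⟩

end Pool.Agent.Results.MP_c47b4a_al.FinPres
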